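import Pool.Agent.W528.Ord.MotDown

/-!
# Ordinary primes for intersection cohomology: a criterion in terms of multiplications

`K₀` is a number field, `X` a projective variety over `K₀`, `F v₀` the characteristic polynomial of the
geometric Frobenius element at `v₀` on `V = IH^n(X)`.  Over a finite extension `K` of `K₀` (over which
the `ℓ`-adic monodromy groups are connected) `V` is a direct sum of `m i` copies of pieces `A i` with
multiplication by totally real or CM fields `(A i).E` defined over `K`.

If some element `γ` of the absolute Galois group of `K` satisfies the orbit condition for all `i`, then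
the places of `K₀` at which the Newton polygon of `V` is its Hodge polygon have positive lower density.
-/

set_option autoImplicit false

namespace Pool.Agent.Results.MP_db07cb_ag.MultiplicationCriterion

open NumberField IsDedekindDomain Polynomial
open Pool.Agent.W401.Cheb Pool.Agent.W528.Ord

theorem result (K₀ K : Type) [Field K₀] [NumberField K₀] [Field K] [NumberField K] [Algebra K₀ K]
    (ℓ : ℕ) [Fact ℓ.Prime] {ι : Type} [Fintype ι] (A : ι → MotSystem K ℓ) (m : ι → ℕ)
    (χ : GK K →* (PadicAlgCl ℓ)ˣ) (S : Finset ℕ) (hA : ∀ i, (A i).IsMotive χ S)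
    (F : HeightOneSpectrum (𝓞 K₀) → Polynomial ℤ)
    (hF : ∀ (v₀ : HeightOneSpectrum (𝓞 K₀)) (v : HeightOneSpectrum (𝓞 K)),
      v.asIdeal.comap (algebraMap (𝓞 K₀) (𝓞 K)) = v₀.asIdeal → MultSystem.IsDeg1 S v →
      (F v₀).map (Int.castRingHom (AlgebraicClosure K)) = MotSystem.prodPoly A m v)
    (hγ : ∃ γ : GK K, ∀ i, (A i).Admissible γ) :
    0 < lowerDensity (OrdinaryPlace S F (MotSystem.slopes A m)) :=
  MotSystem.lower_down K₀ K ℓ A m χ S hA F hF hγ

end Pool.Agent.Results.MP_db07cb_ag.MultiplicationCriterion
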